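import Pool.Agent.W533.LP.Stm
import Pool.Agent.W533.LP.Stm3

/-!
# Project LP, part AC: anti-concentration of an increment
-/

set_option autoImplicit false

namespace Pool.Agent.W381.LP

open MeasureTheory ProbabilityTheory Filter Topology
open Pool.Agent.W533.LP

theorem geoFam_precomp {Ω ι κ : Type} [MeasurableSpace Ω] {μ : Measure Ω} {p : ι → ℝ}
    {X : ι → Ω → ℕ} (h : GeoFam μ p X) (g : κ → ι) (hg : Function.Injective g) :
    GeoFam μ (fun i => p (g i)) (fun i => X (g i)) where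
  prob := h.prob
  pos i := h.pos (g i)
  meas i := h.meas (g i)
  indep := h.indep.precomp hg
  law i := h.law (g i)

/-- the increments over `s` steps -/
theorem telescope (hM : AMeas) {Ω : Type} [MeasurableSpace Ω] (I J : ℕ → Ω → ℕ)
    (W : ℕ → ℕ → Ω → ℕ) (m n k : ℕ) (ω : Ω) :
    Gr I J W (m + k) n ω = Gr I J W m n ω + ∑ i : Fin k, Ninc I J W n (m + i) ω := by
  induction k with
  | zero => simp
  | succ k ih =>
    rw [Fin.sum_univ_castSucc]
    simp only [Fin.val_castSucc, Fin.val_last]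
    rw [← add_assoc (Gr I J W m n ω), ← ih]
    have h := (hM.2.2 (fun i => I i ω) (fun j => J j ω) (fun i j => W i j ω) (m + k) n).1
    unfold Ninc Gr
    rw [show m + (k + 1) = m + k + 1 from rfl]
    omega

theorem burke_geo (hB : PBurke) {Ω : Type} [MeasurableSpace Ω] {μ : Measure Ω} {q a : ℝ}
    {I J : ℕ → Ω → ℕ} {W : ℕ → ℕ → Ω → ℕ} (hq : 0 < q) (hqa : q < a) (ha : a < 1)
    (hS : Sys0 μ q a I J W) (H s : ℕ) :
    GeoFam μ (fun _ : Fin s => a) (fun i : Fin s => Ninc I J W H (H + i)) := by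
  have h := hB μ q a I J W _ _ hq hqa ha hS (H + s) H
  have h2 := geoFam_precomp h (fun i : Fin s => Sum.inl (Fin.natAdd H i))
    (fun i j hij => by simpa using hij)
  exact h2

theorem sqrt_facts {q : ℝ} (h0 : 0 < q) (h1 : q < 1) :
    q < Real.sqrt q ∧ Real.sqrt q < 1 ∧ 0 < dd q ∧ dd q ≤ (Real.sqrt q - q) / 4 ∧
      dd q ≤ (1 - Real.sqrt q) / 4 := by
  have ha : q < Real.sqrt q := by
    rw [Real.lt_sqrt h0.le]
    nlinarith
  have hb : Real.sqrt q < 1 := by
    rw [Real.sqrt_lt' one_pos]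
    linarith
  refine ⟨ha, hb, ?_, ?_, ?_⟩
  · unfold dd
    have : 0 < min (Real.sqrt q - q) (1 - Real.sqrt q) := lt_min (by linarith) (by linarith)
    positivity
  · unfold dd
    have := min_le_left (Real.sqrt q - q) (1 - Real.sqrt q)
    linarith
  · unfold dd
    have := min_le_right (Real.sqrt q - q) (1 - Real.sqrt q)
    linarith

/-- Lipschitz bounds for the mean. -/
theorem mean_lip {t d : ℝ} (ht1 : t < 1) (hd : 0 < d) (hd1 : d ≤ (1 - t) / 4) :
    mean t - 2 / (1 - t) ^ 2 * d ≤ mean (t - d) ∧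
    mean (t + d) ≤ mean t + 2 / (1 - t) ^ 2 * d := by
  have h1 : 0 < 1 - t := by linarith
  have h2 : 0 < 1 - (t - d) := by linarith
  have h3 : 0 < 1 - (t + d) := by linarith
  unfold mean
  constructor
  · have e1 : t / (1 - t) - (t - d) / (1 - (t - d)) = d / ((1 - t) * (1 - (t - d))) := by
      field_simp
      ring
    have e2 : d / ((1 - t) * (1 - (t - d))) ≤ 2 / (1 - t) ^ 2 * d := by
      rw [div_mul_eq_mul_div, div_le_div_iff₀ (by positivity) (by positivity)]
      nlinarith [mul_pos hd h1, mul_pos (mul_pos hd h1) h1, mul_pos (mul_pos hd h1) hd]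
    linarith
  · have e1 : (t + d) / (1 - (t + d)) - t / (1 - t) = d / ((1 - t) * (1 - (t + d))) := by
      field_simp
      ring
    have e2 : d / ((1 - t) * (1 - (t + d))) ≤ 2 / (1 - t) ^ 2 * d := by
      rw [div_mul_eq_mul_div, div_le_div_iff₀ (by positivity) (by positivity)]
      have h4 : (1 - t) / 2 ≤ 1 - (t + d) := by linarith
      have h5 : d * (1 - t) ^ 2 ≤ 2 * d * ((1 - t) * (1 - (t + d))) := by
        have : 2 * d * ((1 - t) * (1 - (t + d))) - d * (1 - t) ^ 2 =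
          2 * (d * (1 - t)) * ((1 - (t + d)) - (1 - t) / 2) := by ring
        have h6 : 0 ≤ 2 * (d * (1 - t)) * ((1 - (t + d)) - (1 - t) / 2) := by
          apply mul_nonneg (by positivity) (by linarith)
        linarith
      exact h5
    linarith

theorem transfer (hM : AMeas) (hL : ALawB) {Ω Ω' : Type} [MeasurableSpace Ω] [MeasurableSpace Ω']
    {μ : Measure Ω} {μ' : Measure Ω'} {q : ℝ} {W : ℕ → ℕ → Ω → ℕ} {W' : ℕ → ℕ → Ω' → ℕ}
    (h : Bulk μ q W) (h' : Bulk μ' q W') (m m' n : ℕ) (A : Set ℝ) (hA : MeasurableSet A) :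
    μ.real {ω | (Tr W m n ω : ℝ) - Tr W m' n ω ∈ A} =
      μ'.real {ω | (Tr W' m n ω : ℝ) - Tr W' m' n ω ∈ A} := by
  have hT : ∀ m n : ℕ, Measurable (fun w : ℕ → ℕ → ℕ => (T w m n : ℝ)) := by
    intro m n
    have h1 := hM.1 m n
    have h2 : Measurable (fun w : ℕ → ℕ → ℕ => (zero, zero, w)) := by fun_prop
    exact (measurable_of_countable (fun n : ℕ => (n : ℝ))).comp (h1.comp h2)
  have hF : Measurable (fun w : ℕ → ℕ → ℕ => (T w m n : ℝ) - T w m' n) :=
    (hT m n).sub (hT m' n)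
  have hI := hL μ μ' q W W' h h' _ hF
  have h3 := hI.measure_mem_eq hA
  unfold Measure.real
  exact congrArg ENNReal.toReal h3

theorem pAc (hSW : PSW) (hB : PBurke) (hA : PAnti) (hSys : ASys) (hLB : ALawB) (hO : AOps)
    (hM : AMeas) (hD : DSand) : PAc := by
  intro q h0 h1
  obtain ⟨hqt, ht1, hdd, hdd1, hdd2⟩ := sqrt_facts h0 h1
  set t := Real.sqrt q with ht
  have ht0 : 0 < t := by linarith
  obtain ⟨C, hC1, hSW⟩ := hSW q h0 h1
  obtain ⟨κ0, hκ0, hA⟩ := hA (t - dd q) (t + dd q) (by linarith) (by linarith)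
  set L : ℝ := 2 / (1 - t) ^ 2 with hL
  have h1t : 0 < 1 - t := by linarith
  have hL0 : 0 < L := by positivity
  -- choice of b
  set b : ℝ := 2 * C / κ0 + 1 with hb
  have hC0 : 0 < C := by linarith
  have hb1 : 1 ≤ b := by
    have : 0 ≤ 2 * C / κ0 := by positivity
    linarith
  have hb0 : 0 < b := by linarith
  have hbC : C / b ^ 3 ≤ κ0 / 2 := by
    rw [div_le_iff₀ (by positivity)]
    have h2 : b ≤ b ^ 3 := by
      calc b = b ^ 1 := (pow_one b).symm
        _ ≤ b ^ 3 := pow_le_pow_right₀ hb1 (by norm_num)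
    have h3 : κ0 / 2 * b = C + κ0 / 2 := by
      rw [hb]; field_simp
    nlinarith
  -- choice of c₂
  set c2 : ℝ := min (b / C) ((κ0 / (2 * L * b)) ^ 2) with hc2
  have hc20 : 0 < c2 := lt_min (by positivity) (by positivity)
  refine ⟨κ0 / 2, by positivity, c2, hc20, ?_⟩
  intro c hc hcc2
  have hcb : C * c ≤ b := by
    have := hcc2.trans (min_le_left _ _)
    rw [le_div_iff₀ hC0] at this
    linarith
  have hsc : L * b * Real.sqrt c ≤ κ0 / 2 := by
    have h2 := hcc2.trans (min_le_right _ _)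
    have h3 : Real.sqrt c ≤ κ0 / (2 * L * b) := by
      rw [Real.sqrt_le_left (by positivity)]
      exact h2
    calc L * b * Real.sqrt c ≤ L * b * (κ0 / (2 * L * b)) := by gcongr
      _ = κ0 / 2 := by field_simp
  have hlim : Tendsto (fun H : ℕ => (H : ℝ) ^ (1 / 3 : ℝ)) atTop atTop :=
    (tendsto_rpow_atTop (by norm_num)).comp tendsto_natCast_atTop_atTop
  obtain ⟨H₀, hH₀⟩ := eventually_atTop.1 (((hlim.eventually_ge_atTop (b / dd q)).and
    (hlim.eventually_ge_atTop c)).and (eventually_ge_atTop 1))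
  refine ⟨H₀, ?_⟩
  intro H hH s hs1 hs2 Ω _ μ W hW
  obtain ⟨⟨hH1, hH2⟩, hH3⟩ := hH₀ H hH
  have hHr : (1 : ℝ) ≤ H := by exact_mod_cast hH3
  set h := (H : ℝ) ^ (1 / 3 : ℝ) with hh
  have hh0 : 0 < h := by positivity
  have hh3 : h ^ 3 = H := by
    rw [hh, ← Real.rpow_natCast, ← Real.rpow_mul (by positivity)]
    norm_num
  have hh2 : (H : ℝ) ^ (2 / 3 : ℝ) = h ^ 2 := by
    rw [hh, ← Real.rpow_natCast, ← Real.rpow_mul (by positivity)]
    norm_num
  rw [hh2] at hs1 hs2
  set d : ℝ := b / h with hd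
  have hd0 : 0 < d := by positivity
  have hddq : d ≤ dd q := by
    rw [hd, div_le_iff₀ hh0]
    rw [div_le_iff₀ hdd] at hH1
    linarith
  have hs0 : (0 : ℝ) < s := lt_of_lt_of_le (by positivity) hs1
  have hs1' : 1 ≤ s := by
    have : 0 < s := by exact_mod_cast hs0
    omega
  have hd3 : d ^ 3 * (H : ℝ) = b ^ 3 := by
    rw [hd, ← hh3]; field_simp
  have hsH : s ≤ H := by
    have : (s : ℝ) ≤ H := by
      calc (s : ℝ) ≤ c * h ^ 2 := hs2
        _ ≤ h * h ^ 2 := by gcongr
        _ = H := by rw [← hh3]; ring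
    exact_mod_cast this
  have hCs : C * (s : ℝ) ≤ H * d := by
    calc C * (s : ℝ) ≤ C * (c * h ^ 2) := by gcongr
      _ = (C * c) * h ^ 2 := by ring
      _ ≤ b * h ^ 2 := by gcongr
      _ = H * d := by rw [hd, ← hh3]; field_simp
  have hsd : L * ((s : ℝ) * d) ≤ κ0 / 2 * Real.sqrt s := by
    have h2 : Real.sqrt s ≤ Real.sqrt c * h := by
      rw [← Real.sqrt_sq hh0.le, ← Real.sqrt_mul hc.le]
      exact Real.sqrt_le_sqrt hs2
    calc L * ((s : ℝ) * d) = L * d * (Real.sqrt s * Real.sqrt s) := by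
          rw [Real.mul_self_sqrt hs0.le]; ring
      _ ≤ L * d * (Real.sqrt s * (Real.sqrt c * h)) := by gcongr
      _ = (L * b * Real.sqrt c) * Real.sqrt s := by rw [hd]; field_simp
      _ ≤ κ0 / 2 * Real.sqrt s := by gcongr
  obtain ⟨hm1, hm2⟩ := mean_lip ht1 hd0 (hddq.trans hdd2)
  rw [← hL] at hm1 hm2
  have hn1 : s * mean t - L * (s * d) ≤ s * mean (t - d) := by
    have := mul_le_mul_of_nonneg_left hm1 hs0.le
    linarith
  have hn2 : s * mean (t + d) ≤ s * mean t + L * (s * d) := by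
    have := mul_le_mul_of_nonneg_left hm2 hs0.le
    linarith
  clear hm1 hm2
  constructor
  · -- lower side
    obtain ⟨Ω', _, μ', I, J, W', X, hS⟩ := hSys (κ := Empty) q (t - d) (fun _ => 0) h0
      (by linarith) (by linarith) (fun k => k.elim)
    obtain ⟨hS0, hBk⟩ := (hO μ' q).1 _ _ _ _ _ _ hS
    have hT := transfer hM hLB hW hBk (H + s) H H
      (Set.Ici (s * mean t + κ0 / 2 * Real.sqrt s)) measurableSet_Ici
    have hT' : μ.real {ω | s * mean t + κ0 / 2 * Real.sqrt s ≤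
        (Tr W (H + s) H ω : ℝ) - Tr W H H ω} = μ'.real {ω | s * mean t + κ0 / 2 * Real.sqrt s ≤
        (Tr W' (H + s) H ω : ℝ) - Tr W' H H ω} := hT
    rw [hT']
    have hprob : IsProbabilityMeasure μ' := hBk.prob
    have hgeo := burke_geo hB h0 (by linarith) (by linarith) hS0 H s
    have hE := (hA μ' (t - d) s _ hs1' (by linarith) (by linarith) hgeo).1
    have hBd := (hSW μ' d I J W' (H + s) H hd0 hddq hH3 (by omega) (by omega) (by
      push_cast
      rw [show (H : ℝ) + s - H = s by ring, abs_of_pos hs0]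
      exact hCs)).2 hS0
    rw [hd3] at hBd
    have hsub : {ω | s * mean (t - d) + κ0 * Real.sqrt s ≤
        ∑ i : Fin s, (Ninc I J W' H (H + i) ω : ℝ)} ⊆
        {ω | s * mean t + κ0 / 2 * Real.sqrt s ≤ (Tr W' (H + s) H ω : ℝ) - Tr W' H H ω} ∪
        {ω | Gr zr J W' (H + s) H ω < Gr I zr W' (H + s) H ω} := by
      intro ω hω
      by_cases hb2 : Gr zr J W' (H + s) H ω < Gr I zr W' (H + s) H ω
      · exact Or.inr hb2
      left
      have hle : Gr I zr W' (H + s) H ω ≤ Gr zr J W' (H + s) H ω := not_lt.1 hb2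
      have h3 := (hD (fun i => I i ω) (fun j => J j ω) (fun i j => W' i j ω) (H + s) H).2
        hle s (by omega)
      rw [Nat.add_sub_cancel] at h3
      have h4 := telescope hM I J W' H H s ω
      have h5 : Tr W' H H ω + ∑ i : Fin s, Ninc I J W' H (H + i) ω ≤ Tr W' (H + s) H ω := by
        have h6 : Gr I J W' (H + s) H ω + Tr W' H H ω ≤ Tr W' (H + s) H ω + Gr I J W' H H ω := h3
        omega
      have h7 : (Tr W' H H ω : ℝ) + ∑ i : Fin s, (Ninc I J W' H (H + i) ω : ℝ) ≤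
          Tr W' (H + s) H ω := by exact_mod_cast h5
      have h8 : s * mean (t - d) + κ0 * Real.sqrt s ≤
        ∑ i : Fin s, (Ninc I J W' H (H + i) ω : ℝ) := hω
      show s * mean t + κ0 / 2 * Real.sqrt s ≤ (Tr W' (H + s) H ω : ℝ) - Tr W' H H ω
      linarith
    have h9 := (measureReal_mono (μ := μ') hsub).trans (measureReal_union_le _ _)
    linarith
  · -- upper side
    obtain ⟨Ω', _, μ', I, J, W', X, hS⟩ := hSys (κ := Empty) q (t + d) (fun _ => 0) h0
      (by linarith) (by linarith) (fun k => k.elim)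
    obtain ⟨hS0, hBk⟩ := (hO μ' q).1 _ _ _ _ _ _ hS
    have hT := transfer hM hLB hW hBk (H + s) H H
      (Set.Iic (s * mean t - κ0 / 2 * Real.sqrt s)) measurableSet_Iic
    have hT' : μ.real {ω | (Tr W (H + s) H ω : ℝ) - Tr W H H ω ≤
        s * mean t - κ0 / 2 * Real.sqrt s} = μ'.real {ω | (Tr W' (H + s) H ω : ℝ) - Tr W' H H ω ≤
        s * mean t - κ0 / 2 * Real.sqrt s} := hT
    rw [hT']
    have hprob : IsProbabilityMeasure μ' := hBk.prob
    have hgeo := burke_geo hB h0 (by linarith) (by linarith) hS0 H s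
    have hE := (hA μ' (t + d) s _ hs1' (by linarith) (by linarith) hgeo).2
    have hBd := (hSW μ' d I J W' H H hd0 hddq hH3 (by omega) (by omega) (by
      rw [sub_self, abs_zero, mul_zero]; positivity)).1 hS0
    rw [hd3] at hBd
    have hsub : {ω | ∑ i : Fin s, (Ninc I J W' H (H + i) ω : ℝ) ≤
        s * mean (t + d) - κ0 * Real.sqrt s} ⊆
        {ω | (Tr W' (H + s) H ω : ℝ) - Tr W' H H ω ≤ s * mean t - κ0 / 2 * Real.sqrt s} ∪
        {ω | Gr I zr W' H H ω < Gr zr J W' H H ω} := by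
      intro ω hω
      by_cases hb2 : Gr I zr W' H H ω < Gr zr J W' H H ω
      · exact Or.inr hb2
      left
      have hle : Gr zr J W' H H ω ≤ Gr I zr W' H H ω := not_lt.1 hb2
      have h3 := (hD (fun i => I i ω) (fun j => J j ω) (fun i j => W' i j ω) H H).1 hle s
      have h4 := telescope hM I J W' H H s ω
      have h5 : Tr W' (H + s) H ω ≤ Tr W' H H ω + ∑ i : Fin s, Ninc I J W' H (H + i) ω := by
        have h6 : Tr W' (H + s) H ω + Gr I J W' H H ω ≤ Gr I J W' (H + s) H ω + Tr W' H H ω := h3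
        omega
      have h7 : (Tr W' (H + s) H ω : ℝ) ≤ Tr W' H H ω +
          ∑ i : Fin s, (Ninc I J W' H (H + i) ω : ℝ) := by exact_mod_cast h5
      have h8 : ∑ i : Fin s, (Ninc I J W' H (H + i) ω : ℝ) ≤
        s * mean (t + d) - κ0 * Real.sqrt s := hω
      show (Tr W' (H + s) H ω : ℝ) - Tr W' H H ω ≤ s * mean t - κ0 / 2 * Real.sqrt s
      linarith
    have h9 := (measureReal_mono (μ := μ') hsub).trans (measureReal_union_le _ _)
    linarith

end Pool.Agent.W381.LP
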